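import Pool.Agent.N145.SX.Stm

/-!
Project SX (helper145), part STR (helper999): the structure of the image if it is covered by rational
curves.  After `Pool/Agent/N145/PC/{Str1,Str3,Str4}.lean` of helper145.
-/

set_option autoImplicit false
set_option linter.overlappingInstances false
set_option linter.unusedSectionVars false
set_option linter.unusedVariables false
set_option maxHeartbeats 4000000
set_option synthInstance.maxHeartbeats 400000

open Polynomial FF IsDedekindDomain IntermediateField Module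

namespace Pool.Agent.N999.SX

open Pool.Agent.N145.SX Pool.Agent.N145.PC
open Pool.Agent.W603.LV Pool.Agent.W619.PQ
open Pool.Agent.W602.GT (Divisorial RegAt IsPluri DerReg KodGe LogSec)

open scoped Classical

section

variable {K : Type} [Field K] [Algebra ℂ K] [Algebra.EssFiniteType ℂ K]
  {L : Type} [Field L] [Algebra ℂ L] [Algebra L K] [IsScalarTower ℂ L K]
  [FiniteDimensional L K]

/-- the functions of `E` are constant on rational curves -/
theorem const_E (hcst : S_CST) {n : ℕ} (E : IntermediateField ℂ K)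
    [hess : Algebra.EssFiniteType ℂ E] (hE : Algebra.trdeg ℂ E = n)
    {x : Fin n → E} (hx : IsTranscendenceBasis ℂ x) {g : ℕ} (hsep : SepX x (fun _ => False) g)
    (hdeg : 2 * finrank L (IntermediateField.adjoin L (E : Set K)) < g) {s : AlgebraicClosure K}
    (hs : Transcendental (algebraicClosure E (AlgebraicClosure K)) s)
    (hL : ∀ z : L, algebraMap K (AlgebraicClosure K) (algebraMap L K z) ∈
      IntermediateField.adjoin (algebraicClosure E (AlgebraicClosure K)) {s}) :
    ∀ τ : K →ₐ[L] AlgebraicClosure K, ∀ z ∈ E, τ z ∈ algebraicClosure E (AlgebraicClosure K) := by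
  intro τ z hz
  let Λ := algebraicClosure E (AlgebraicClosure K)
  have hΛ : IsAlgClosed Λ := (algebraicClosure.isAlgClosure E (AlgebraicClosure K)).isAlgClosed
  have hTΛ : IsScalarTower ℂ Λ (AlgebraicClosure K) := IsScalarTower.of_algebraMap_eq fun z => by
    rw [IsScalarTower.algebraMap_apply ℂ K (AlgebraicClosure K)]
    rfl
  have hTE : IsScalarTower ℂ E Λ := IsScalarTower.of_algebraMap_eq fun z => by
    apply Subtype.ext
    rfl
  have hΛtr : Algebra.trdeg ℂ Λ = n := by
    have h1 := trdeg_add_eq ℂ E (A := Λ)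
    have h2 : Algebra.trdeg E Λ = 0 := by
      rw [trdeg_eq_zero_iff]
      infer_instance
    rw [h2, add_zero, hE] at h1
    exact h1.symm
  obtain ⟨A, hA⟩ : ∃ A, A = IntermediateField.adjoin L (E : Set K) := ⟨_, rfl⟩
  rw [← hA] at hdeg
  have hτL : ∀ a : L, τ (algebraMap L K a) ∈ IntermediateField.adjoin Λ {s} := by
    intro a
    rw [AlgHom.commutes, IsScalarTower.algebraMap_apply L K (AlgebraicClosure K)]
    exact hL a
  obtain ⟨hf1, hf2⟩ := adj_le (A0 := L) (A := A) (R := Λ⟮s⟯)
    ((τ : K →+* AlgebraicClosure K).comp (algebraMap A K))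
    (fun a => ⟨⟨τ (algebraMap L K a), hτL a⟩, rfl⟩)
  let φ : E →ₐ[ℂ] AlgebraicClosure K := (τ.restrictScalars ℂ).comp E.val
  have hle : IntermediateField.adjoin Λ⟮s⟯ (Set.range φ) ≤ IntermediateField.adjoin Λ⟮s⟯
      (Set.range ((τ : K →+* AlgebraicClosure K).comp (algebraMap A K))) := by
    apply IntermediateField.adjoin.mono
    rintro _ ⟨w, rfl⟩
    exact ⟨⟨(w : K), by rw [hA]; exact IntermediateField.subset_adjoin _ _ w.2⟩, rfl⟩
  have hfin : FiniteDimensional Λ⟮s⟯ (IntermediateField.adjoin Λ⟮s⟯ (Set.range φ)) :=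
    FiniteDimensional.of_injective (IntermediateField.inclusion hle).toLinearMap
      (IntermediateField.inclusion hle).injective
  have hfr : finrank Λ⟮s⟯ (IntermediateField.adjoin Λ⟮s⟯ (Set.range φ)) ≤
      finrank Λ⟮s⟯ (IntermediateField.adjoin Λ⟮s⟯
        (Set.range ((τ : K →+* AlgebraicClosure K).comp (algebraMap A K)))) :=
    IntermediateField.finrank_le_of_le_right hle
  have h1 := hcst E Λ (AlgebraicClosure K) n n hE hΛtr x hx g hsep s hs φ hfin (by omega) ⟨z, hz⟩
  have h2 : IsAlgebraic E (τ z) := h1.restrictScalars E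
  exact mem_algebraicClosure_iff.2 h2

/-- the base is of general type -/
theorem base (hgt : S_GT) {n : ℕ} (E : IntermediateField ℂ K)
    [hess : Algebra.EssFiniteType ℂ E] (hE : Algebra.trdeg ℂ E = n)
    (hcl : ∀ z : K, IsAlgebraic E z → z ∈ E)
    {x : Fin n → E} (hx : IsTranscendenceBasis ℂ x) {g : ℕ} (hsep : SepX x (fun _ => False) g)
    (hdeg : 2 * finrank L (IntermediateField.adjoin L (E : Set K)) < g)
    (hfirst : ∀ z ∈ E, IsAlgebraic (E.comap (IsScalarTower.toAlgHom ℂ L K)) z) :
    Algebra.trdeg ℂ (E.comap (IsScalarTower.toAlgHom ℂ L K)) = n ∧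
    KodGe ℂ (E.comap (IsScalarTower.toAlgHom ℂ L K)) n (fun _ => False) n := by
  obtain ⟨N, hN⟩ : ∃ N, N = E.comap (IsScalarTower.toAlgHom ℂ L K) := ⟨_, rfl⟩
  have hclN : ∀ z : L, IsAlgebraic N z → z ∈ N := by
    intro z hz
    subst hN
    exact closed_comap E hcl hz
  have hNB' : ∀ z ∈ N, algebraMap L K z ∈ E := by
    intro z hz
    rw [hN] at hz
    exact hz
  have hNB : ∀ z : N, algebraMap L K z ∈ E := fun z => hNB' z z.2
  rw [← hN] at hfirst ⊢
  let iB : Algebra N E := (RingHom.mk ⟨⟨fun z => ⟨algebraMap L K z, hNB z⟩,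
    Subtype.ext (map_one (algebraMap L K))⟩, fun a b => Subtype.ext (map_mul (algebraMap L K) _ _)⟩
    (Subtype.ext (map_zero (algebraMap L K))) (fun a b => Subtype.ext (map_add (algebraMap L K) _ _))
    : N →+* E).toAlgebra
  have hBK : IsScalarTower N E K := IsScalarTower.of_algebraMap_eq fun _ => rfl
  have hCB : IsScalarTower ℂ N E := IsScalarTower.of_algebraMap_eq fun c =>
    Subtype.ext (IsScalarTower.algebraMap_apply ℂ L K c)
  have hBalg : Algebra.IsAlgebraic N E := by
    constructor
    intro b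
    exact (isAlgebraic_algebraMap_iff (R := N) (algebraMap E K).injective).1 (hfirst _ b.2)
  have hBess' : Algebra.EssFiniteType N E := Algebra.EssFiniteType.of_comp ℂ N E
  have hBfin : FiniteDimensional N E := Algebra.finite_of_essFiniteType_of_isAlgebraic
  have hNtr : Algebra.trdeg ℂ N = n := Pool.Agent.Y184.NT.trdeg_below (K := E) hE
  refine ⟨hNtr, ?_⟩
  have hclN' : ∀ x : L, IsIntegral N x → ∃ y : N, algebraMap N L y = x := fun x hx =>
    ⟨⟨x, hclN x hx.isAlgebraic⟩, rfl⟩
  have hchN : CharZero N := charZero_of_injective_algebraMap (algebraMap ℂ N).injective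
  have e1 : finrank N E ≤ finrank L (IntermediateField.adjoin L (E : Set K)) :=
    finrank_le_of_disj (N := N) (L := L) (A := E) (K := K) hclN'
      (IntermediateField.adjoin L (E : Set K)) fun a => IntermediateField.subset_adjoin _ _ a.2
  exact hgt N E n hE x hx g hsep (by omega)

end

/-- **STR** -/
theorem STR (hcst : S_CST) (hgt : S_GT) : S_STR := by
  intro K _ _ _ n E _ hE hK hcl x hx g hsep L _ _ _ _ _ hdeg s hs hL
  have hconst := const_E hcst E hE hx hsep hdeg hs hL
  have hfirst : ∀ z ∈ E, IsAlgebraic (E.comap (IsScalarTower.toAlgHom ℂ L K)) z := fun z hz =>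
    alg_of_const E hcl fun τ => hconst τ z hz
  obtain ⟨h2, h3⟩ := base hgt E hE hcl hx hsep hdeg hfirst
  exact ⟨_, fun z hz => closed_comap _ hcl hz, h2, h3, to_ratfunc _ hs hL hfirst⟩

end Pool.Agent.N999.SX
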