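import Pool.Agent.N145.SX.Stm2
import Pool.Agent.R885.FinAc

/-!
Project SX (helper145), part FG (helper999): subfields of finitely generated fields are finitely
generated.  The proof follows `Pool.Agent.N133.CC.ess_any` and uses `Pool.Agent.R885.fin_algClosure`.
-/

set_option autoImplicit false
set_option linter.overlappingInstances false

open IntermediateField Module

namespace Pool.Agent.N999.SX

/-- intermediate fields of finitely generated extensions are finitely generated, after
`Pool.Agent.N133.CC.ess_any` -/
theorem ess_any {k K : Type} [Field k] [Field K] [Algebra k K] [hess : Algebra.EssFiniteType k K]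
    (E : IntermediateField k K) : Algebra.EssFiniteType k E := by
  obtain ⟨ι, z, hz⟩ := exists_isTranscendenceBasis' k E
  have hzK : AlgebraicIndependent k (fun i => (z i : K)) :=
    hz.1.map' (f := E.val) E.val.injective
  have hfinι : Finite ι := by
    have h2 : Cardinal.mk ι ≤ Algebra.trdeg k K := hzK.cardinalMk_le_trdeg
    exact Cardinal.lt_aleph0_iff_finite.1 (h2.trans_lt (trdeg_lt_aleph0 k K))
  have hessE : Algebra.EssFiniteType k (IntermediateField.adjoin k (Set.range z)) := by
    rw [IntermediateField.essFiniteType_iff]
    exact IntermediateField.fg_adjoin_of_finite (Set.finite_range z)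
  have halg : Algebra.IsAlgebraic (IntermediateField.adjoin k (Set.range z)) E :=
    hz.isAlgebraic_field
  have hess1 : Algebra.EssFiniteType (IntermediateField.adjoin k (Set.range z)) K :=
    Algebra.EssFiniteType.of_comp k _ K
  have hfin1 := Pool.Agent.R885.fin_algClosure (IntermediateField.adjoin k (Set.range z)) K
  have hfin2 : FiniteDimensional (IntermediateField.adjoin k (Set.range z)) E := by
    let f : E →ₐ[IntermediateField.adjoin k (Set.range z)]
        algebraicClosure (IntermediateField.adjoin k (Set.range z)) K :=
      { toFun := fun e => ⟨algebraMap E K e, mem_algebraicClosure_iff.2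
          ((halg.isAlgebraic e).algebraMap)⟩
        map_one' := Subtype.ext (map_one (algebraMap E K))
        map_mul' := fun a b => Subtype.ext (map_mul (algebraMap E K) a b)
        map_zero' := Subtype.ext (map_zero (algebraMap E K))
        map_add' := fun a b => Subtype.ext (map_add (algebraMap E K) a b)
        commutes' := fun c => Subtype.ext rfl }
    exact FiniteDimensional.of_injective f.toLinearMap f.injective
  have h1 : Algebra.EssFiniteType (IntermediateField.adjoin k (Set.range z)) E := inferInstance
  exact Algebra.EssFiniteType.comp k (IntermediateField.adjoin k (Set.range z)) E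

/-- **FG** -/
theorem FG : Pool.Agent.N145.SX.S_FG := by
  intro k K _ _ _ _ _ B
  exact ess_any B

end Pool.Agent.N999.SX
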